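import Pool.Agent.H21.TN.ND.Num

/-!
# MP_5ee2d0_ag: the blow up in a point
-/

namespace Pool.Agent.H21.TN.ND

namespace Var

variable {r : ℕ} {X : Var r}

theorem bl_f (m : X.Pr → ℕ) (e : ℝ) (v w : Vec (r + 1)) : (X.bl m e).f v w =
    X.num.f (Matrix.vecTail v) (Matrix.vecTail w) - e ^ (X.n - 2) * (v 0 * w 0) := rfl

theorem bl_none (m : X.Pr → ℕ) (e : ℝ) : (X.bl m e).cl none = Matrix.vecCons 1 0 := rfl

theorem bl_some (m : X.Pr → ℕ) (e : ℝ) (F : X.Pr) :
    (X.bl m e).cl (some F) = Matrix.vecCons (-(m F : ℝ)) (X.num.cl F) := rfl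

theorem bl_A (m : X.Pr → ℕ) (e : ℝ) : (X.bl m e).A = Matrix.vecCons (-e) X.num.A := rfl

theorem tail_add (x y : Vec (r + 1)) :
    Matrix.vecTail (x + y) = Matrix.vecTail x + Matrix.vecTail y := rfl

theorem tail_smul (t : ℝ) (x : Vec (r + 1)) :
    Matrix.vecTail (t • x) = t • Matrix.vecTail x := rfl

/-- the prime divisors of the blow up -/
theorem bl_pre (h : X.num.Form) {m : X.Pr → ℕ} {e : ℝ} (he : 0 < e)
    (hcl : ∀ F F', F ≠ F' → 0 ≤ (X.bl m e).f ((X.bl m e).cl (some F)) ((X.bl m e).cl (some F')))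
    (hamp : ∀ v, ∃ t : ℝ, 0 < t ∧ ∀ F, (X.bl m e).Free F ((X.bl m e).A + t • v)) :
    (X.bl m e).Pre where
  ne := ⟨none⟩
  add x y z := by
    simp only [bl_f, tail_add, h.add, Pi.add_apply]
    ring
  mul t x y := by
    simp only [bl_f, tail_smul, h.mul, Pi.smul_apply, smul_eq_mul]
    ring
  symm x y := by
    rw [bl_f, bl_f, h.symm, mul_comm (x 0)]
  nd x hx := by
    have h1 : x 0 = 0 := by
      have h2 := hx (Matrix.vecCons 1 0)
      rw [bl_f, Matrix.tail_cons, h.zero', Matrix.cons_val_zero, mul_one, zero_sub,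
        neg_eq_zero] at h2
      exact (mul_eq_zero.1 h2).resolve_left (pow_pos he _).ne'
    have h4 : Matrix.vecTail x = 0 := h.nd _ fun y => by
      have h2 := hx (Matrix.vecCons 0 y)
      rwa [bl_f, Matrix.tail_cons, Matrix.cons_val_zero, mul_zero, mul_zero, sub_zero] at h2
    rw [← Matrix.cons_head_tail x, Matrix.vecHead, h1, h4]
    exact Matrix.cons_zero_zero
  cl_ne F := by
    cases F with
    | none =>
      intro h1
      have h2 := congrFun h1 0
      exact one_ne_zero h2
    | some F =>
      intro h1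
      refine h.cl_ne F ?_
      funext i
      exact congrFun h1 i.succ
  cl_cl F F' hne := by
    have hp := pow_pos he (X.n - 2)
    cases F with
    | none =>
      cases F' with
      | none => exact absurd rfl hne
      | some F' =>
        rw [bl_f, bl_none, bl_some, Matrix.tail_cons, h.zero, Matrix.cons_val_zero,
          Matrix.cons_val_zero, one_mul, zero_sub, mul_neg, neg_neg]
        positivity
    | some F =>
      cases F' with
      | none =>
        rw [bl_f, bl_none, bl_some, Matrix.tail_cons, Matrix.tail_cons, h.zero',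
          Matrix.cons_val_zero, Matrix.cons_val_zero, mul_one, zero_sub, mul_neg, neg_neg]
        positivity
      | some F' => exact hcl F F' fun h1 => hne (congrArg some h1)
  amp := hamp

/-- the Hodge index theorem on the blow up -/
theorem bl_form (h : X.num.Form) {m : X.Pr → ℕ} {e : ℝ} (he : 0 < e)
    (hcl : ∀ F F', F ≠ F' → 0 ≤ (X.bl m e).f ((X.bl m e).cl (some F)) ((X.bl m e).cl (some F')))
    (hamp : ∀ v, ∃ t : ℝ, 0 < t ∧ ∀ F, (X.bl m e).Free F ((X.bl m e).A + t • v)) :
    (X.bl m e).Form where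
  toPre := bl_pre h he hcl hamp
  index x hx := by
    have hA := (bl_pre h he hcl hamp).A_A
    have hp := pow_pos he (X.n - 2)
    rw [bl_f, bl_A, Matrix.tail_cons, Matrix.cons_val_zero] at hA hx
    rw [bl_f]
    have ha := h.A_A
    set a := X.num.f X.num.A X.num.A
    set q := e ^ (X.n - 2)
    set y := Matrix.vecTail x
    set b := X.num.f X.num.A y with hb
    have h1 : X.num.f X.num.A (a • y - b • X.num.A) = 0 := by
      rw [h.sub', h.mul', h.mul']
      ring
    have h2 := h.index _ h1
    simp only [h.sub, h.sub', h.mul, h.mul', h.symm y X.num.A, ← hb] at h2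
    have h3 : a * X.num.f y y ≤ b ^ 2 := by
      have h4 : a * (a * X.num.f y y - b ^ 2) ≤ 0 := by nlinarith
      by_contra h5
      push Not at h5
      have h6 := mul_pos ha (sub_pos.2 h5)
      linarith
    have h4 : b = -(q * e * x 0) := by linarith
    have h5 : a * (X.num.f y y - q * (x 0 * x 0)) ≤ -(q * (a - q * (e * e)) * (x 0) ^ 2) := by
      rw [h4] at h3
      nlinarith
    have h6 : 0 ≤ q * (a - q * (e * e)) * (x 0) ^ 2 := by
      have h7 : 0 ≤ a - q * (e * e) := by linarith
      positivity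
    by_contra h7
    push Not at h7
    have h8 := mul_pos ha h7
    linarith

end Var

end Pool.Agent.H21.TN.ND
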