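import Pool.Agent.H21.TN.ND.Flat

namespace Pool.Agent.H21.TN.ND

open scoped BigOperators

/-- the restriction of the line bundle to `B` is torsion -/
theorem Flat.torsion {G : Type} [Group G] [Fintype G] (F : Flat G) : Fintype.card G • F.p = 0 := by
  have h1 : ∀ w, ∑ g, F.actW g w = 0 := by
    intro w
    refine F.inv _ fun g => ?_
    have h := map_sum (AddMonoidHom.mk' (F.actW g) (F.add_W g)) (fun x => F.actW x w) Finset.univ
    refine h.trans ?_
    calc ∑ x, F.actW g (F.actW x w) = ∑ x, F.actW (g * x) w :=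
          Finset.sum_congr rfl fun x _ => (F.mul_W g x w).symm
      _ = ∑ x, F.actW x w := Fintype.sum_equiv (Equiv.mulLeft g) _ _ fun x => rfl
  have h2 : ∀ v, ∑ g, F.actV g v = 0 := by
    intro v
    obtain ⟨w, rfl⟩ := F.r_onto v
    have h := map_sum (AddMonoidHom.mk' F.r F.add_r) (fun x => F.actW x w) Finset.univ
    calc ∑ g, F.actV g (F.r w) = ∑ g, F.r (F.actW g w) :=
          Finset.sum_congr rfl fun g _ => (F.r_act g w).symm
      _ = F.r (∑ g, F.actW g w) := h.symm
      _ = 0 := by rw [h1]; exact map_zero (AddMonoidHom.mk' F.r F.add_r)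
  have h3 := F.rigid h2 F.p
  rw [Finset.sum_congr rfl fun g _ => F.p_inv g] at h3
  simpa using h3

end Pool.Agent.H21.TN.ND
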