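import Mathlib

/-!
# The abelian factor

`X` is a projective manifold with `K_X ~ 0` and `H^1(X, O_X) = 0`, `X' → X` is a finite étale Galois covering
with group `G` and `X' = A × ∏ Y_i`, where `A` is an abelian variety and the `Y_i` are simply connected.
-/

namespace Pool.Agent.H21.TN.ND

/-- A nef line bundle `M` on `A`, invariant under `G`: the restriction of the pull back of a line
bundle of `X`. `B` is the largest abelian subvariety on which `M` is numerically trivial (the neutral
component of the kernel of `φ_M : A → Pic^0(A)`). The group `G` acts on `A` (Beauville: the vector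
fields of the `Y_i` are zero), on `Pic^0(B)` and on the tangent spaces. -/
structure Flat (G : Type) [Group G] [Fintype G] where
  /-- `Pic^0(B)` -/
  Z : Type
  [grpZ : AddCommGroup Z]
  act : G → Z → Z
  /-- `H^1(A, O_A)` and `H^1(B, O_B)`, the tangent spaces of `Pic^0(A)` and `Pic^0(B)` -/
  W : Type
  V : Type
  [grpW : AddCommGroup W]
  [grpV : AddCommGroup V]
  actW : G → W → W
  actV : G → V → V
  add_W : ∀ g x y, actW g (x + y) = actW g x + actW g y
  mul_W : ∀ g g' w, actW (g * g') w = actW g (actW g' w)
  /-- the restriction is onto (Poincaré's complete reducibility) and equivariant -/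
  r : W → V
  add_r : ∀ x y, r (x + y) = r x + r y
  r_onto : Function.Surjective r
  r_act : ∀ g w, r (actW g w) = actV g (r w)
  /-- `H^1(X, O_X) = 0` is the space of invariants of `H^1(X', O_(X')) = H^1(A, O_A)` -/
  inv : ∀ w, (∀ g, actW g w = w) → w = 0
  /-- an endomorphism of an abelian variety with vanishing differential is zero -/
  rigid : (∀ v, ∑ g, actV g v = 0) → ∀ z, ∑ g, act g z = 0
  /-- the restriction of `M` to `B`; it does not depend on the translate of `B`, and `M` is
  invariant -/
  p : Z
  p_inv : ∀ g, act g p = p

attribute [instance] Flat.grpZ Flat.grpW Flat.grpV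

end Pool.Agent.H21.TN.ND
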