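import Mathlib

/-!
# MP_5ee2d0_ag: projective manifolds, divisors, currents, differential forms
-/

namespace Pool.Agent.H21.TN.ND

open scoped BigOperators

/-! ## Numerical classes -/

/-- `N^1(Y)` with real coefficients, `r` the Picard number. -/
abbrev Vec (r : ℕ) := Fin r → ℝ

/-- The numerical classes of divisors on a projective manifold `Y` of dimension `n ≥ 2`. -/
structure Num (r : ℕ) (Pr : Type) where
  /-- the intersection number `x.y.A^(n-2)` -/
  f : Vec r → Vec r → ℝ
  /-- an ample class -/
  A : Vec r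
  /-- the class of a prime divisor -/
  cl : Pr → Vec r

namespace Num

variable {r : ℕ} {Pr : Type} (Y : Num r Pr)

/-- `x` is the class of an effective divisor with real coefficients -/
def Eff (x : Vec r) : Prop :=
  ∃ (k : ℕ) (F : Fin k → Pr) (u : Fin k → ℝ), (∀ i, 0 ≤ u i) ∧ x = ∑ i, u i • Y.cl (F i)

/-- `x` is the class of an effective divisor with real coefficients which does not contain `F` -/
def Free (F : Pr) (x : Vec r) : Prop :=
  ∃ (k : ℕ) (G : Fin k → Pr) (u : Fin k → ℝ), (∀ i, 0 ≤ u i) ∧ (∀ i, G i ≠ F) ∧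
    x = ∑ i, u i • Y.cl (G i)

/-- pseudoeffective classes -/
def Psef (x : Vec r) : Prop := ∀ t : ℝ, 0 < t → Y.Eff (x + t • Y.A)

/-- movable classes: if `t > 0` then no prime divisor is contained in all the effective divisors with the
class `x + t A` -/
def Mov (x : Vec r) : Prop := ∀ t : ℝ, 0 < t → ∀ F, Y.Free F (x + t • Y.A)

/-- Prime divisors and the ample class. -/
structure Pre : Prop where
  ne : Nonempty Pr
  add : ∀ x y z, Y.f (x + y) z = Y.f x z + Y.f y z
  mul : ∀ (t : ℝ) x y, Y.f (t • x) y = t * Y.f x y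
  symm : ∀ x y, Y.f x y = Y.f y x
  /-- numerically trivial classes are zero -/
  nd : ∀ x, (∀ y, Y.f x y = 0) → x = 0
  cl_ne : ∀ F, Y.cl F ≠ 0
  /-- different prime divisors meet in codimension two or not at all -/
  cl_cl : ∀ F F', F ≠ F' → 0 ≤ Y.f (Y.cl F) (Y.cl F')
  /-- if `t` is small then `A + t x` is ample and so it is a positive combination of very ample classes -/
  amp : ∀ x, ∃ t : ℝ, 0 < t ∧ ∀ F, Y.Free F (Y.A + t • x)

/-- In addition the Hodge index theorem. -/
structure Form : Prop extends Y.Pre where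
  index : ∀ x, Y.f Y.A x = 0 → Y.f x x ≤ 0

end Num

/-! ## The manifold -/

/-- A projective manifold `X` with Picard number `r`. -/
structure Var (r : ℕ) where
  /-- the Picard group -/
  P : Type
  /-- prime divisors -/
  Pr : Type
  /-- points -/
  Pt : Type
  /-- irreducible curves -/
  Cv : Type
  [grp : AddCommGroup P]
  /-- the dimension of `X` -/
  n : ℕ
  /-- the line bundle of a prime divisor -/
  O : Pr → P
  /-- the degree of a line bundle on a curve -/
  deg : Cv → P → ℤ
  /-- the point lies on the prime divisor -/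
  On : Pt → Pr → Prop
  /-- the dimension of `H^q(X, x)` -/
  h : ℕ → P → ℕ
  /-- the class of a line bundle in `N^1(X) = ℤ^r` -/
  c : P → Fin r → ℤ
  /-- an ample class -/
  H : Vec r
  /-- the intersection number `x.y.H^(n-2)` -/
  f : Vec r → Vec r → ℝ

attribute [instance] Var.grp

namespace Var

variable {r : ℕ} (X : Var r)

/-- the class of a line bundle in `N^1(X)` with real coefficients -/
def rl (x : X.P) : Vec r := fun i => (X.c x i : ℝ)

/-- the numerical classes with real coefficients -/
def num : Num r X.Pr := ⟨X.f, X.H, fun F => X.rl (X.O F)⟩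

/-- the line bundle `O_X(D)` of an effective divisor -/
def line (D : X.Pr →₀ ℕ) : X.P := D.sum fun F k => k • X.O F

/-- nef line bundles -/
def Nef (x : X.P) : Prop := ∀ C, 0 ≤ X.deg C x

/-- semiample line bundles: for some `m ≥ 1` the linear system `|m x|` has no base points -/
def Semiample (x : X.P) : Prop :=
  ∃ m : ℕ, 0 < m ∧ ∀ p, ∃ D, X.line D = m • x ∧ ∀ F ∈ D.support, ¬ X.On p F

/-- `x^2` is numerically trivial: the numerical dimension of the nef class `x` is at most one -/
def One (x : X.P) : Prop := X.num.f (X.rl x) (X.rl x) = 0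

/-- the Euler characteristic of a line bundle -/
def chi (x : X.P) : ℤ := ∑ q ∈ Finset.range (X.n + 1), (-1) ^ q * (X.h q x : ℤ)

end Var

/-- Divisors on `X`; `H^1(X, O_X) = 0`. -/
structure Var.Divisors {r : ℕ} (X : Var r) : Prop where
  form : X.num.Form
  add_c : ∀ x y, X.c (x + y) = X.c x + X.c y
  /-- `H^1(X, O_X) = 0`: numerically trivial line bundles are torsion -/
  tors : ∀ x, X.c x = 0 → ∃ k : ℕ, 0 < k ∧ k • x = 0
  /-- Kleiman: if `x` is nef and `t > 0` then `x + t H` is ample -/
  mov : ∀ x, X.Nef x → X.num.Mov (X.rl x)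
  /-- a nonzero section has a divisor -/
  sect : ∀ x, X.h 0 x ≠ 0 ↔ ∃ D, X.line D = x

/-- Cohomology of line bundles on `X`. -/
structure Var.Coh {r : ℕ} (X : Var r) : Prop where
  /-- Snapper, Hirzebruch: the Euler characteristic of `L^m` is a polynomial in `m` -/
  snapper : ∀ x, ∃ p : Polynomial ℚ, ∀ m : ℤ, (X.chi (m • x) : ℚ) = p.eval (m : ℚ)

/-- The blow up `X_p` of `X` in a point, with the exceptional divisor `E`. The classes are `x + a E`,
written as `(a, x)`, and `(x + a E).(y + b E).(H - e E)^(n-2) = x.y.H^(n-2) - e^(n-2) a b`, because the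
pull back of `x` to `E` is trivial and `E^n = (-1)^(n-1)`. The prime divisors are `E` and the strict
transforms `F - m E` of the prime divisors `F` of `X`, where `m` is the multiplicity of `F` in `p`. -/
def Var.bl {r : ℕ} (X : Var r) (m : X.Pr → ℕ) (e : ℝ) : Num (r + 1) (Option X.Pr) where
  f v w := X.f (Matrix.vecTail v) (Matrix.vecTail w) - e ^ (X.n - 2) * (v 0 * w 0)
  A := Matrix.vecCons (-e) X.H
  cl F := F.elim (Matrix.vecCons 1 0) fun F => Matrix.vecCons (-(m F : ℝ)) (X.rl (X.O F))

/-- Closed positive currents on `X`. -/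
structure Var.Currents {r : ℕ} (X : Var r) where
  /-- the closed positive currents in the class `c_1(x)` -/
  Cur : X.P → Type
  /-- Lelong numbers -/
  nu : ∀ x, Cur x → X.Pt → ℝ
  nu_nonneg : ∀ x T p, 0 ≤ nu x T p
  /-- a nef class contains a closed positive current -/
  exist : ∀ x, X.Nef x → Nonempty (Cur x)
  /-- the multiplicity of a prime divisor in a point -/
  m : X.Pt → X.Pr → ℕ
  e : X.Pt → ℝ
  e_pos : ∀ p, 0 < e p
  /-- different prime divisors of `X_p` meet in codimension two or not at all -/
  cl_cl : ∀ p F F', F ≠ F' →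
    0 ≤ (X.bl (m p) (e p)).f ((X.bl (m p) (e p)).cl (some F)) ((X.bl (m p) (e p)).cl (some F'))
  /-- `H - e E` is an ample class on `X_p`, and so are `H - e E + t v` if `t` is small, and
  `x + t (H - e E)` if `x` is nef and `t > 0` -/
  amp : ∀ p v, ∃ t : ℝ, 0 < t ∧ ∀ F, (X.bl (m p) (e p)).Free F ((X.bl (m p) (e p)).A + t • v)
  mov : ∀ p x, X.Nef x → (X.bl (m p) (e p)).Mov (Matrix.vecCons 0 (X.rl x))
  /-- Siu: the pull back of `T` minus `nu` times the exceptional divisor is a positive current -/
  siu : ∀ p x T, (X.bl (m p) (e p)).Psef (Matrix.vecCons (-nu x T p) (X.rl x))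

/-- subspaces of `K^N` -/
abbrev Sub (K : Type) [Field K] (N : ℕ) := Submodule K (Fin N → K)

/-- the span of vectors of `K^N` -/
def span {K : Type} [Field K] {N k : ℕ} (v : Fin k → Fin N → K) : Sub K N := Submodule.span K (Set.range v)

/-- linearly independent vectors of `K^N` -/
def Indep {K : Type} [Field K] {N k : ℕ} (v : Fin k → Fin N → K) : Prop := LinearIndependent K v

/-- Differential forms on `X` with values in multiples of the nef line bundle `L`. `K` is the
function field of `X`; after the choice of a rational section of `L` the sections of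
`Ω^p ⊗ L^m` are vectors of `Ω^p ⊗ K = K^N`, `N = n.choose p`. -/
structure Var.Forms {r : ℕ} (X : Var r) (C : X.Currents) (L : X.P) where
  K : Type
  [fld : Field K]
  /-- the vector is the value at the generic point of a section of `Ω^p ⊗ L^m` -/
  sec : (p m : ℕ) → (Fin (X.n.choose p) → K) → Prop
  /-- the determinant of the quotient `Ω^p / F`, `F` the saturated subsheaf of `Ω^p` with generic fibre `V`;
  as `K_X ~ 0` the determinant of `F` is `-quo p V` -/
  quo : (p : ℕ) → Sub K (X.n.choose p) → X.P
  /-- Campana and Paun: `K_X` is pseudoeffective, so the determinant of a torsion free quotient of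
  `Ω^p` is pseudoeffective -/
  cp : ∀ p V, X.num.Psef (X.rl (quo p V))
  /-- the exterior product of linearly independent maps `L^(-m_i) → F` is a nonzero map to the
  determinant of `F` -/
  wedge : ∀ p (k : ℕ) (v : Fin k → Fin (X.n.choose p) → K) (m : Fin k → ℕ),
    Indep v → (∀ i, sec p (m i) (v i)) → X.h 0 ((∑ i, m i) • L - quo p (span v)) ≠ 0
  /-- Skoda: if all the Lelong numbers are zero then all the multiplier ideals of the multiples of the
  metric are trivial; Demailly, Peternell and Schneider: hard Lefschetz theorem, with `K_X ~ 0` -/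
  dps : ∀ T, (∀ p, C.nu L T p = 0) → ∀ q m : ℕ, q ≤ X.n → 0 < m → X.h q (m • L) ≠ 0 →
    ∃ v, (∃ j, v j ≠ 0) ∧ sec (X.n - q) m v

attribute [instance] Var.Forms.fld

/-- for some `p` there is a nonzero section of `Ω^p ⊗ L^m` -/
def Var.Forms.Has {r : ℕ} {X : Var r} {C : X.Currents} {L : X.P} (F : X.Forms C L) (m : ℕ) : Prop :=
  ∃ p v, (∃ j, v j ≠ 0) ∧ F.sec p m v

end Pool.Agent.H21.TN.ND
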